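import Pool.Agent.Helper90.NS.Out

/-!
# NW: block G3, the tail at one scale
-/

set_option autoImplicit false
open MeasureTheory Set Filter Topology
open Pool.Agent.Helper57.Zeta Pool.Agent.Helper57.LH Pool.Agent.Helper57.ED
open Pool.Agent.Helper54.LG (qk qk_cont qk_zero_nonneg qk_neg_right za zb)
open Pool.Agent.Helper93.UG (zc sp)
open Pool.Agent.Helper93.NR (KK KK_abs KK_le KK_mass KK_cont KK_nonneg)
open Pool.Agent.Helper90.NS

namespace Pool.Agent.Helper90.NW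

lemma mass_eq {L : ℝ} (hL : 0 ≤ L) {M : ℝ} (hM : 0 < M) : M - ∫ x in (-L)..L, KK M x = 2 * ∫ x in Ioi L, KK M x := by
  obtain ⟨m1, m2, -⟩ := KK_mass hM
  have hi : ∀ a b : ℝ, IntervalIntegrable (KK M) volume a b := fun a b => (KK_cont M).intervalIntegrable a b
  have e1 : ∫ x in (-L)..L, KK M x = 2 * ∫ x in (0:ℝ)..L, KK M x := by
    rw [← intervalIntegral.integral_add_adjacent_intervals (hi (-L) 0) (hi 0 L)]
    have e2 : ∫ x in (-L)..0, KK M x = ∫ x in (0:ℝ)..L, KK M x := by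
      have e3 := intervalIntegral.integral_comp_neg (a := 0) (b := L) (fun x => KK M x)
      rw [neg_zero] at e3
      rw [← e3]
      refine intervalIntegral.integral_congr fun x _ => ?_
      change KK M (-x) = KK M x
      rw [← KK_abs M (-x), abs_neg, KK_abs]
    rw [e2]
    ring
  have e4 := intervalIntegral.integral_interval_add_Ioi m2 (m2.mono_set (Ioi_subset_Ioi hL))
  linarith

/-- G3: one scale, the zeros at distance more than `L`. -/
theorem out_sc_of (hd : DevThick) {k κ : ℝ} (hk : 0 < k) (hκ : 0 < κ) (hκ8 : κ ≤ 1 / 8) :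
    ∃ c C T₀ : ℝ, 0 < c ∧ 1 ≤ C ∧ ∀ T L : ℝ, T₀ ≤ T → C ≤ L → L ≤ Real.log T →
    ∃ E : Set ℝ, volume E ≤ ENNReal.ofReal (C * L ^ (-4 : ℝ) * T) ∧ ∀ t ∈ Icc (T / 2) (3 * T), t ∉ E → ∀ u : ℝ, |u - t| ≤ sp T →
    ∀ j : ℕ, L ^ κ ≤ (1 + k) ^ j → (1 + k) ^ j ≤ L ^ (1 - κ) →
      |∑' ρ : ZS, mx ρ * (if |(ρ : ℂ).im - u| ≤ L * sp T then 0 else qk 0 (2 * Real.pi * (((ρ : ℂ).im - u) / sp T) / (1 + k) ^ j)) -
        ((1 + k) ^ j - ∫ x in (-L)..L, qk 0 (2 * Real.pi * x / (1 + k) ^ j))| ≤ C * L ^ (-c) := by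
  obtain ⟨C₁, T₁, hC₁, H1⟩ := hd κ 4 hκ (by linarith) (by norm_num)
  obtain ⟨C₂, hC₂, H2⟩ := pt_tail
  refine ⟨κ, C₁ + 2 * (70 + 40 * C₂), max T₁ (Real.exp 10), hκ, by linarith, fun T L hT hCL hLT => ?_⟩
  have hT1 : T₁ ≤ T := (le_max_left _ _).trans hT
  have hT2 : Real.exp 10 ≤ T := (le_max_right _ _).trans hT
  have hT0 : 0 < T := (Real.exp_pos _).trans_le hT2
  have hl10 : 10 ≤ Real.log T := by
    rw [Real.le_log_iff_exp_le hT0]
    exact hT2
  set l : ℝ := Real.log T with hl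
  have hT3 : 3 ≤ T := by
    have := Real.add_one_le_exp (10:ℝ)
    linarith
  have hL1 : 1 ≤ L := by linarith
  have hL0 : 0 < L := by linarith
  have hpi := Real.pi_gt_three
  have hpi4 := Real.pi_lt_four
  have hs : sp T = 2 * Real.pi / l := rfl
  have hs0 : 0 < sp T := by
    rw [hs]
    positivity
  obtain ⟨E, hE, H⟩ := H1 T L hT1 (by linarith) hLT
  refine ⟨E, hE.trans (ENNReal.ofReal_le_ofReal ?_), fun t ht hnE u hu j hj1 hj2 => ?_⟩
  · refine mul_le_mul_of_nonneg_right (mul_le_mul_of_nonneg_right (by linarith) (by positivity)) hT0.le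
  -- the point
  set U : ℝ := l ^ 9 with hU
  have hl0 : 0 < l := by linarith
  have hl1 : 1 ≤ l := by linarith
  have hLU : L ≤ U := by
    calc L ≤ l := hLT
      _ = l ^ 1 := (pow_one l).symm
      _ ≤ l ^ 9 := pow_le_pow_right₀ hl1 (by norm_num)
  have hU10 : U + 1 ≤ l ^ 10 := by
    have h1 : (1:ℝ) ≤ l ^ 9 := one_le_pow₀ hl1
    have h2 : l ^ 10 = l ^ 9 * l := pow_succ l 9
    rw [h2, hU]
    nlinarith
  have hUs : U * sp T = 2 * Real.pi * l ^ 8 := by
    rw [hs, hU]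
    field_simp
  have hU1 : 1 ≤ U * sp T := by
    rw [hUs]
    have h1 : (1:ℝ) ≤ l ^ 8 := one_le_pow₀ hl1
    nlinarith
  have hsq : l ^ 4 ≤ √(U * sp T) := by
    apply Real.le_sqrt_of_sq_le
    rw [hUs, ← pow_mul]
    have h1 : (0:ℝ) < l ^ 8 := by positivity
    norm_num
    nlinarith
  have hs1 : sp T ≤ 1 := by
    rw [hs, div_le_one hl0]
    linarith
  have hut : |u| ≤ 4 * T := by
    have h1 := abs_sub_abs_le_abs_sub u t
    have h2 : |t| ≤ 3 * T := by
      rw [abs_of_nonneg (by linarith [ht.1])]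
      exact ht.2
    linarith
  have hpt : ∀ M : ℝ, 1 ≤ M → M ≤ L ^ (1 - κ) →
      |∑' ρ : ZS, mx ρ * (if |(ρ : ℂ).im - u| ≤ L * sp T then 0 else KK M (((ρ : ℂ).im - u) / sp T)) -
        2 * ∫ x in Ioi L, KK M x| ≤ (70 + 40 * C₂) * L ^ (-κ) := by
    intro M hM1 hML
    have hM0 : 0 < M := by linarith
    have h1 := H2 T u L U M 1 (l ^ (-(1 - κ))) κ hT3 hut hL1 hLU hU1 hM0 zero_le_one (by positivity) hκ.le (by linarith)
      (fun x hx => by
        have := (H t ht hnE u hu x hx.1 (hx.2.trans hU10)).1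
        rw [one_mul, mul_comm (l ^ (-(1 - κ))) x]
        exact this)
      (fun x hx => by
        have := (H t ht hnE u hu x hx.1 (hx.2.trans hU10)).2
        rw [one_mul, mul_comm (l ^ (-(1 - κ))) x]
        exact this)
    refine h1.trans ?_
    -- sizes
    have hMsq : M ^ 2 ≤ L ^ (2 - 2 * κ) := by
      calc M ^ 2 ≤ (L ^ (1 - κ)) ^ 2 := pow_le_pow_left₀ hM0.le hML 2
        _ = L ^ (2 - 2 * κ) := by
          rw [← Real.rpow_natCast, ← Real.rpow_mul hL0.le]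
          congr 1
          push_cast
          ring
    have g1 : M ^ 2 * L ^ (κ - 2) ≤ L ^ (-κ) := by
      calc M ^ 2 * L ^ (κ - 2) ≤ L ^ (2 - 2 * κ) * L ^ (κ - 2) := mul_le_mul_of_nonneg_right hMsq (by positivity)
        _ = L ^ (-κ) := by
          rw [← Real.rpow_add hL0]
          congr 1
          ring
    have g2 : l ^ (-(1 - κ)) * M ^ 2 * L ^ ((1:ℝ) - 2) ≤ L ^ (-κ) := by
      have g3 : l ^ (-(1 - κ)) ≤ L ^ (-(1 - κ)) := Real.rpow_le_rpow_of_nonpos hL0 hLT (by linarith)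
      calc l ^ (-(1 - κ)) * M ^ 2 * L ^ ((1:ℝ) - 2) ≤ L ^ (-(1 - κ)) * L ^ (2 - 2 * κ) * L ^ ((1:ℝ) - 2) := by
            refine mul_le_mul_of_nonneg_right (mul_le_mul g3 hMsq (by positivity) (by positivity)) (by positivity)
        _ = L ^ (-κ) := by
          rw [← Real.rpow_add hL0, ← Real.rpow_add hL0]
          congr 1
          ring
    have g4 : M ^ 2 / l ^ 4 ≤ L ^ (-κ) := by
      have g5 : L ^ (2 - 2 * κ) ≤ l ^ 4 * L ^ (-κ) := by
        have g6 : L ^ (2 - 2 * κ) = L ^ (2 - κ) * L ^ (-κ) := by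
          rw [← Real.rpow_add hL0]
          congr 1
          ring
        rw [g6]
        refine mul_le_mul_of_nonneg_right ?_ (by positivity)
        calc L ^ (2 - κ) ≤ L ^ (4:ℝ) := Real.rpow_le_rpow_of_exponent_le hL1 (by linarith)
          _ ≤ l ^ (4:ℝ) := Real.rpow_le_rpow hL0.le hLT (by norm_num)
          _ = l ^ 4 := by norm_cast
      rw [div_le_iff₀ (by positivity)]
      linarith
    have g7 : C₂ * M ^ 2 * sp T ^ 2 * l / √(U * sp T) ≤ 40 * C₂ * L ^ (-κ) := by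
      have g8 : sp T ^ 2 * l ≤ 40 := by
        rw [hs, div_pow]
        have e : (2 * Real.pi) ^ 2 / l ^ 2 * l = 4 * Real.pi ^ 2 / l := by
          field_simp
          ring
        rw [e, div_le_iff₀ hl0]
        nlinarith
      have g9 : 0 < sp T ^ 2 * l := by positivity
      calc C₂ * M ^ 2 * sp T ^ 2 * l / √(U * sp T) ≤ C₂ * M ^ 2 * sp T ^ 2 * l / l ^ 4 :=
            div_le_div_of_nonneg_left (by positivity) (by positivity) hsq
        _ = C₂ * (sp T ^ 2 * l) * (M ^ 2 / l ^ 4) := by ring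
        _ ≤ C₂ * 40 * L ^ (-κ) := by
          refine mul_le_mul (mul_le_mul_of_nonneg_left g8 hC₂.le) g4 (by positivity) (by positivity)
        _ = _ := by ring
    have g10 : M ^ 2 / U ≤ L ^ (-κ) := by
      refine le_trans ?_ g4
      rw [hU]
      exact div_le_div_of_nonneg_left (by positivity) (by positivity) (pow_le_pow_right₀ hl1 (by norm_num))
    have hp : 0 < L ^ (-κ) := by positivity
    have e1 : 2 * (2 * (1 + 4 * 1) * M ^ 2 * L ^ (κ - 2) + 2 * (4 * l ^ (-(1 - κ))) * M ^ 2 * L ^ ((1:ℝ) - 2)) =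
        20 * (M ^ 2 * L ^ (κ - 2)) + 16 * (l ^ (-(1 - κ)) * M ^ 2 * L ^ ((1:ℝ) - 2)) := by ring
    rw [e1]
    have t1 := mul_le_mul_of_nonneg_left g1 (by norm_num : (0:ℝ) ≤ 20)
    have t2 := mul_le_mul_of_nonneg_left g2 (by norm_num : (0:ℝ) ≤ 16)
    have t3 := mul_le_mul_of_nonneg_left g10 (by norm_num : (0:ℝ) ≤ 2)
    refine (add_le_add (add_le_add (add_le_add t1 t2) g7) t3).trans ?_
    have e2 : (70 + 40 * C₂) * L ^ (-κ) =
        (20 * L ^ (-κ) + 16 * L ^ (-κ) + 40 * C₂ * L ^ (-κ) + 2 * L ^ (-κ)) + 32 * L ^ (-κ) := by ring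
    rw [e2]
    exact le_add_of_nonneg_right (by positivity)
  have hM1 : (1:ℝ) ≤ (1 + k) ^ j := one_le_pow₀ (by linarith)
  have h1 := hpt _ hM1 hj2
  rw [← mass_eq hL0.le (by linarith)] at h1
  have hp : 0 < L ^ (-κ) := by positivity
  refine h1.trans (mul_le_mul_of_nonneg_right (by linarith) hp.le)

end Pool.Agent.Helper90.NW
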